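import Pool.Agent.N162.GP.Stm

/-!
# Project GP, GC: a curve with many generic points of `V` is contained in `V` (helper340)
-/

set_option autoImplicit false

open FF Pool.Agent.W603.LV MvPolynomial

namespace Pool.Agent.N340.GP

open Pool.Agent.N162.HN (Crv Good At mu pt)
open Pool.Agent.N162.GP

section

variable {Ω E : Type} [Field Ω] [Field E] [Algebra Ω E]

theorem ge_of_sub {v : Place Ω E} {f : E} {a : Ω} (h : Ge v 1 (f - algebraMap Ω E a)) :
    Ge v 0 f := by
  have h1 := (h.mono (by norm_num : (0 : ℤ) ≤ 1)).add (Ge.const (P := v) a)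
  rwa [sub_add_cancel] at h1

theorem ge_aeval_sub {ι : Type} {v : Place Ω E} {Y : ι → E} {y : ι → Ω}
    (h : ∀ i, Ge v 1 (Y i - algebraMap Ω E (y i))) (P : MvPolynomial ι Ω) :
    Ge v 1 (aeval Y P - algebraMap Ω E (eval y P)) := by
  induction P using MvPolynomial.induction_on with
  | C a =>
    rw [aeval_C, eval_C, sub_self]
    exact Ge.zero
  | add P Q hP hQ =>
    rw [map_add, map_add, map_add]
    have h1 := hP.add hQ
    convert h1 using 1
    ring
  | mul_X P i hP =>
    rw [map_mul, map_mul, map_mul, aeval_X, eval_X]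
    have h1 := hP.mul (ge_of_sub (h i))
    have h2 := (Ge.const (P := v) (eval y P)).mul (h i)
    rw [add_zero] at h1
    rw [zero_add] at h2
    have h3 := Ge.add h1 h2
    convert h3 using 1
    ring

theorem ge_aeval {ι : Type} {v : Place Ω E} {Y : ι → E} (h : ∀ i, Ge v 0 (Y i))
    (P : MvPolynomial ι Ω) : Ge v 0 (aeval Y P) := by
  induction P using MvPolynomial.induction_on with
  | C a =>
    rw [aeval_C]
    exact Ge.const a
  | add P Q hP hQ =>
    rw [map_add]
    exact hP.add hQ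
  | mul_X P i hP =>
    rw [map_mul, aeval_X]
    have h1 := hP.mul (h i)
    rwa [add_zero] at h1

theorem ge_const_zero {v : Place Ω E} {a : Ω} (h : Ge v 1 (algebraMap Ω E a)) : a = 0 := by
  by_contra ha
  rcases h with h | h
  · exact ha ((map_eq_zero _).1 h)
  · rw [v.ord_const ha] at h
    omega

/-- at a pole of `X 1` -/
theorem ge_pole {M : ℕ} {X : Fin (M + 2) → E} (hX : Good Ω X) {Q : MvPolynomial (Fin (M + 2)) Ω}
    {D : ℕ} (hQ : Q.totalDegree ≤ D) (v : Place Ω E) (hv : v.ord (X 1) < 0) :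
    Ge v 0 (aeval X Q / X 1 ^ D) := by
  have h0 : X 1 ≠ 0 := by
    intro h
    rw [h, v.ord_zero] at hv
    omega
  have hinv : Ge v 0 (X 1)⁻¹ := by
    refine Or.inr ?_
    rw [v.ord_inv]
    omega
  rw [aeval_def, eval₂_eq', Finset.sum_div]
  refine Ge.sum _ _ fun e he => ?_
  have h1 : ∑ i, e i ≤ D := by
    have h2 := (le_totalDegree he).trans hQ
    rwa [Finsupp.sum_fintype _ _ (fun _ => rfl)] at h2
  have h3 : algebraMap Ω E (coeff e Q) * ∏ i, X i ^ e i =
      algebraMap Ω E (coeff e Q) * ∏ i, X i ^ e i := rfl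
  have h4 : algebraMap Ω E (coeff e Q) * (∏ i, X i ^ e i) / X 1 ^ D =
      algebraMap Ω E (coeff e Q) * ((∏ i, (X i / X 1) ^ e i) * (X 1)⁻¹ ^ (D - ∑ i, e i)) := by
    have h5 : ∏ i, (X i / X 1) ^ e i = (∏ i, X i ^ e i) / X 1 ^ (∑ i, e i) := by
      simp only [div_pow]
      rw [Finset.prod_div_distrib, Finset.prod_pow_eq_pow_sum]
    have h6 : X 1 ^ D = X 1 ^ (∑ i, e i) * X 1 ^ (D - ∑ i, e i) := by
      rw [← pow_add]
      congr 1
      omega
    rw [h5, h6, inv_pow]
    have h7 : X 1 ^ (∑ i, e i) ≠ 0 := pow_ne_zero _ h0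
    have h8 : X 1 ^ (D - ∑ i, e i) ≠ 0 := pow_ne_zero _ h0
    field_simp
  rw [h4]
  have h5 : Ge v 0 (∏ i, (X i / X 1) ^ e i) := by
    have h6 := Ge.prod (P := v) Finset.univ (fun i => (X i / X 1) ^ e i) (fun _ => 0) fun i _ => by
      have h7 := (hX.inf v hv i).pow (e i)
      rwa [mul_zero] at h7
    rwa [Finset.sum_const_zero] at h6
  have h6 := hinv.pow (D - ∑ i, e i)
  rw [mul_zero] at h6
  have h7 := (Ge.const (P := v) (coeff e Q)).mul (h5.mul h6)
  rwa [add_zero, add_zero] at h7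

end

/-- homomorphisms of a field generated by `x` with given values (helper162, HN/Vert) -/
theorem exists_hom {ι K L : Type} [Field K] [Algebra ℂ K] [Field L] [Algebra ℂ L] {x : ι → K}
    {y : ι → L} (hgen : IntermediateField.adjoin ℂ (Set.range x) = ⊤)
    (h : ∀ P : MvPolynomial ι ℂ, aeval y P = 0 ↔ aeval x P = 0) :
    ∃ σ : K →ₐ[ℂ] L, ∀ j, σ (x j) = y j := by
  let e : MvPolynomial ι ℂ →ₐ[ℂ] K := aeval x
  let f : MvPolynomial ι ℂ →ₐ[ℂ] e.range := e.rangeRestrict
  have hf : Function.Surjective f := e.rangeRestrict_surjective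
  let ψ : e.range →ₐ[ℂ] L := AlgHom.liftOfSurjective f hf (aeval y) (by
    intro P hP
    have h1 : aeval x P = 0 := by
      have h2 := congrArg Subtype.val (show f P = 0 from hP)
      exact h2
    exact (h P).2 h1)
  have hψ : ∀ P, ψ (f P) = aeval y P := fun P => AlgHom.liftOfSurjective_apply f hf _ _ P
  have hinj : Function.Injective ψ := by
    rw [injective_iff_map_eq_zero]
    intro a ha
    obtain ⟨P, rfl⟩ := hf a
    rw [hψ, h] at ha
    exact Subtype.ext ha
  have hfr : IsFractionRing e.range K := by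
    refine IsFractionRing.of_field _ _ fun z => ?_
    have h1 : z ∈ IntermediateField.adjoin ℂ (Set.range x) := by rw [hgen]; trivial
    obtain ⟨r, hr, s, hs, hz⟩ := IntermediateField.mem_adjoin_iff_div.1 h1
    rw [Algebra.adjoin_range_eq_range_aeval] at hr hs
    exact ⟨⟨r, hr⟩, ⟨s, hs⟩, hz⟩
  refine ⟨IsFractionRing.liftAlgHom (K := K) hinj, fun j => ?_⟩
  have h1 : x j = algebraMap e.range K (f (X j)) := by
    change x j = aeval x (X j)
    rw [aeval_X]
  rw [h1, IsFractionRing.liftAlgHom_apply, IsFractionRing.lift_algebraMap]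
  exact (hψ (X j)).trans (aeval_X _ _)

theorem totalDegree_map_le' {ι R S : Type} [CommSemiring R] [CommSemiring S] (f : R →+* S)
    (P : MvPolynomial ι R) : (map f P).totalDegree ≤ P.totalDegree :=
  Finset.sup_mono (support_map_subset f P)

theorem pt_aeval {M : ℕ} {K Ω : Type} [Field K] [Algebra ℂ K] [Field Ω] [Algebra ℂ Ω]
    (x : Fin (M + 2) → K) (σ : K →ₐ[ℂ] Ω) (G : MvPolynomial (Fin (M + 2)) ℂ) :
    eval (pt x σ) (map (algebraMap ℂ Ω) G) = σ (aeval x G) := by
  rw [eval_map, ← aeval_def]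
  exact (MvPolynomial.comp_aeval_apply (φ := σ) x G).symm

theorem gc_ (hC1 : Pool.Agent.N162.HN.StC1) : Pool.Agent.N162.GP.StGC := by
  classical
  intro M D K Ω _ _ _ _ _ x hx0 hgen hcut C T hT hcard
  have hcΩ : CharZero Ω := charZero_of_injective_algebraMap (algebraMap ℂ Ω).injective
  have hX := C.good
  -- (1) the equations of low degree
  have h1 : ∀ Q : MvPolynomial (Fin (M + 2)) ℂ, Q.totalDegree ≤ D → aeval x Q = 0 →
      aeval C.X (map (algebraMap ℂ Ω) Q) = 0 := by
    intro Q hQ hQx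
    by_contra hne
    obtain ⟨c1, c2, c3, c4⟩ := hC1 M Ω C.E C.X hX (aeval C.X (map (algebraMap ℂ Ω) Q)) D hne
      (fun v hv => ge_aeval (hX.fin v hv) _)
      (fun v hv => ge_pole hX ((totalDegree_map_le' _ _).trans hQ) v hv)
    have h2 : ∀ p ∈ T, 1 ≤ mu C.X (aeval C.X (map (algebraMap ℂ Ω) Q)) p := by
      intro p hp
      obtain ⟨⟨v, hv⟩, σ, rfl⟩ := hT p hp
      have h3 : Ge v 1 (aeval C.X (map (algebraMap ℂ Ω) Q)) := by
        have h4 := ge_aeval_sub hv (map (algebraMap ℂ Ω) Q)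
        rwa [pt_aeval, hQx, map_zero, map_zero, sub_zero] at h4
      have h5 : 0 < v.ord (aeval C.X (map (algebraMap ℂ Ω) Q)) := by
        rcases h3 with h3 | h3
        · exact absurd h3 hne
        · omega
      have h6 := (c2 (pt x σ)).2 ⟨v, hv, h5⟩
      have h7 := c1 (pt x σ)
      omega
    have h3 := Finset.sum_le_sum h2
    rw [Finset.sum_const, nsmul_eq_mul, mul_one] at h3
    have h4 := h3.trans (c4 T)
    have h5 : T.card ≤ Module.finrank (IntermediateField.adjoin Ω {C.X 1}) C.E * D := by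
      exact_mod_cast h4
    exact absurd hcard (not_lt.2 h5)
  -- (2) all equations
  have h2 : ∀ P : MvPolynomial (Fin (M + 2)) ℂ, aeval x P = 0 →
      aeval C.X (map (algebraMap ℂ Ω) P) = 0 := by
    intro P hP
    obtain ⟨k, hk⟩ := hcut P hP
    have h3 : Ideal.span {Q : MvPolynomial (Fin (M + 2)) ℂ | Q.totalDegree ≤ D ∧ aeval x Q = 0} ≤
        RingHom.ker (((aeval C.X : MvPolynomial (Fin (M + 2)) Ω →ₐ[Ω] C.E) :
          MvPolynomial (Fin (M + 2)) Ω →+* C.E).comp (map (algebraMap ℂ Ω))) := by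
      rw [Ideal.span_le]
      rintro Q ⟨hQ1, hQ2⟩
      exact h1 Q hQ1 hQ2
    have h4 := h3 hk
    rw [RingHom.mem_ker, map_pow] at h4
    by_contra hne
    exact pow_ne_zero k hne h4
  -- (3) a generic point
  have hTne : T.Nonempty := Finset.card_pos.1 (by omega)
  obtain ⟨p, hp⟩ := hTne
  obtain ⟨⟨v, hv⟩, σ, rfl⟩ := hT p hp
  have h3 : ∀ P : MvPolynomial (Fin (M + 2)) ℂ, aeval C.X (map (algebraMap ℂ Ω) P) = 0 →
      aeval x P = 0 := by
    intro P hP
    have h4 := ge_aeval_sub hv (map (algebraMap ℂ Ω) P)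
    rw [pt_aeval, hP, zero_sub] at h4
    have h5 := h4.neg
    rw [neg_neg] at h5
    exact (map_eq_zero σ).1 (ge_const_zero h5)
  -- (4) the homomorphism
  let : Algebra ℂ C.E := ((algebraMap Ω C.E).comp (algebraMap ℂ Ω)).toAlgebra
  have h4 : ∀ P : MvPolynomial (Fin (M + 2)) ℂ, aeval C.X P =
      aeval C.X (map (algebraMap ℂ Ω) P) := by
    intro P
    rw [aeval_def, aeval_def, eval₂_map]
    rfl
  obtain ⟨φ, hφ⟩ := exists_hom hgen (y := C.X) fun P => by
    rw [h4]
    exact ⟨h3 P, h2 P⟩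
  exact ⟨φ, fun z => φ.commutes z, hφ⟩

end Pool.Agent.N340.GP
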